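import Pool.Agent.Lib.MP_004b1b_co.DL.FX

/-!
# MP_004b1b_co: covering extremal sets by lines

For every extremal set `P` of `n ≥ 2` points: a fractional cover by lines of total weight at most `C n / log n`; for every
`j` at most `j` lines covering all but `n exp (- c j log n / n)` points; for `n ≥ 16` a cover by at most
`C n log log n / log n` lines.
-/

set_option autoImplicit false

namespace Pool.Agent.Results.MP_004b1b_co.LineCover

open Finset Pool.Agent.Lib.MP_004b1b_co.DL

theorem result :
    ∃ c C : ℝ, 0 < c ∧ 0 < C ∧ ∀ P : Finset Plane, 2 ≤ P.card → (dists P).card = v P.card →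
      (∃ 𝓛 : Finset (Set Plane), ∃ x : Set Plane → ℝ, (∀ L ∈ 𝓛, IsLine L ∧ 0 ≤ x L) ∧
        ∑ L ∈ 𝓛, x L ≤ C * (P.card / Real.log P.card) ∧
        ∀ p ∈ P, 1 ≤ ∑ L ∈ 𝓛, L.indicator (fun _ => x L) p) ∧
      (∀ j : ℕ, ∃ 𝓛 : Finset (Set Plane), 𝓛.card ≤ j ∧ (∀ L ∈ 𝓛, IsLine L) ∧
        ∃ R ⊆ P, (R.card : ℝ) ≤ P.card * Real.exp (-(c * j * (Real.log P.card / P.card))) ∧
        ∀ p ∈ P, p ∉ R → ∃ L ∈ 𝓛, p ∈ L) ∧
      (16 ≤ P.card → ∃ 𝓛 : Finset (Set Plane), (∀ L ∈ 𝓛, IsLine L) ∧ (∀ p ∈ P, ∃ L ∈ 𝓛, p ∈ L) ∧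
        (𝓛.card : ℝ) ≤ C * (P.card * Real.log (Real.log P.card) / Real.log P.card)) := by
  obtain ⟨A, hA, h⟩ := fx_sq
  have hA0 : 0 < A := by linarith
  have hA2 : 1 ≤ A ^ 2 := one_le_pow₀ hA
  refine ⟨1 / (67108864 * A ^ 2), 4294967296 * A ^ 2, by positivity, by positivity, ?_⟩
  intro P hP hv
  obtain ⟨h1, h2⟩ := h P hP (extremal_of_v hv)
  obtain ⟨hl, hn, hln⟩ := fx_nonneg P hP
  have hne : P.Nonempty := card_pos.1 (by omega)
  refine ⟨?_, ?_, ?_⟩
  · have hμ : Real.log P.card / (1073741824 * A ^ 2 * P.card) ≤ 1 := by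
      rw [div_le_one (by positivity)]
      nlinarith
    obtain ⟨𝓛, x, h3, h4, h5⟩ := frac P hne (Real.log P.card / (1073741824 * A ^ 2 * P.card))
      (by positivity) hμ (fun w => fx_wrich hA hP h2 w)
    refine ⟨𝓛, x, h3, h4.trans (le_of_eq ?_), h5⟩
    field_simp
    ring
  · intro j
    have hμ : Real.log P.card / (67108864 * A ^ 2 * P.card) ≤ 1 := by
      rw [div_le_one (by positivity)]
      nlinarith
    obtain ⟨𝓛, h3, h4, R, hR, h5, h6⟩ := part P (Real.log P.card / (67108864 * A ^ 2 * P.card)) hμ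
      (fun Q hQ hQ0 => fx_rich hA hP h2 Q hQ hQ0) j
    refine ⟨𝓛, h3, h4, R, hR, h5.trans ?_, h6⟩
    refine mul_le_mul_of_nonneg_left ?_ hn.le
    have h7 : 1 - Real.log P.card / (67108864 * A ^ 2 * P.card) ≤
        Real.exp (-(Real.log P.card / (67108864 * A ^ 2 * P.card))) := by
      have := Real.add_one_le_exp (-(Real.log P.card / (67108864 * A ^ 2 * P.card)))
      linarith
    calc (1 - Real.log P.card / (67108864 * A ^ 2 * P.card)) ^ j
        ≤ (Real.exp (-(Real.log P.card / (67108864 * A ^ 2 * P.card)))) ^ j :=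
          pow_le_pow_left₀ (by linarith) h7 j
      _ = Real.exp (-(1 / (67108864 * A ^ 2) * j * (Real.log P.card / P.card))) := by
          rw [← Real.exp_nat_mul]
          congr 1
          field_simp
  · intro h16
    have hn16 : (16 : ℝ) ≤ P.card := by exact_mod_cast h16
    have hT : 67108864 * ((dists P).card : ℝ) ^ 2 / P.card ≤
        67108864 * A ^ 2 * P.card / Real.log P.card := by
      rw [div_le_div_iff₀ hn hl]
      calc 67108864 * ((dists P).card : ℝ) ^ 2 * Real.log P.card
          = 67108864 * (((dists P).card : ℝ) ^ 2 * Real.log P.card) := by ring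
        _ ≤ 67108864 * (A ^ 2 * (P.card : ℝ) ^ 2) := mul_le_mul_of_nonneg_left h2 (by norm_num)
        _ = 67108864 * A ^ 2 * P.card * P.card := by ring
    obtain ⟨𝓛, h3, h4, h5⟩ := fin_cover P hP (dists P).card (fun q hq => distsFrom_le hq)
      (67108864 * A ^ 2 * P.card / Real.log P.card) hT
    refine ⟨𝓛, h3, h4, h5.trans ?_⟩
    have he : Real.exp 1 < 2.7182818286 := Real.exp_one_lt_d9
    have hl1 : Real.exp 1 ≤ Real.log P.card := by
      rw [Real.le_log_iff_exp_le hn]
      have h6 : Real.exp (Real.exp 1) ≤ Real.exp (2.7182818286 : ℝ) := Real.exp_le_exp.2 he.le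
      have h7 : Real.exp (2.7182818286 : ℝ) ≤ 16 := by
        have h8 : Real.exp (2.7182818286 : ℝ) = Real.exp 1 * (Real.exp 1 * Real.exp 0.7182818286) := by
          rw [← Real.exp_add, ← Real.exp_add]
          norm_num
        have h9 : Real.exp (0.7182818286 : ℝ) ≤ 2.0515 := by
          have h10 := Real.exp_bound' (x := 0.7182818286) (by norm_num) (by norm_num) (n := 8) (by norm_num)
          refine h10.trans ?_
          norm_num [Finset.sum_range_succ, Nat.factorial]
        have h11 : 0 < Real.exp 1 := Real.exp_pos 1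
        have h12 : 0 < Real.exp (0.7182818286 : ℝ) := Real.exp_pos _
        rw [h8]
        have h13 : Real.exp 1 * Real.exp 0.7182818286 ≤ 2.7182818286 * 2.0515 :=
          mul_le_mul he.le h9 h12.le (by norm_num)
        calc Real.exp 1 * (Real.exp 1 * Real.exp 0.7182818286) ≤ 2.7182818286 * (2.7182818286 * 2.0515) :=
              mul_le_mul he.le h13 (by positivity) (by norm_num)
          _ ≤ 16 := by norm_num
      linarith
    have hll : 1 ≤ Real.log (Real.log P.card) := by
      rw [Real.le_log_iff_exp_le hl]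
      exact hl1
    have hmax : Real.log (max 1 (P.card / (67108864 * A ^ 2 * P.card / Real.log P.card))) ≤
        Real.log (Real.log P.card) := by
      apply Real.log_le_log (by positivity)
      refine max_le ?_ ?_
      · have : (1 : ℝ) ≤ Real.exp 1 := by
          have := Real.add_one_le_exp (1 : ℝ)
          linarith
        linarith
      · rw [div_le_iff₀ (by positivity), mul_div_assoc', le_div_iff₀ hl]
        have : (P.card : ℝ) ≤ 67108864 * A ^ 2 * P.card := by nlinarith
        nlinarith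
    have hT0 : 0 < 67108864 * A ^ 2 * P.card / Real.log P.card := by positivity
    calc 67108864 * A ^ 2 * P.card / Real.log P.card *
          (2 + Real.log (max 1 (P.card / (67108864 * A ^ 2 * P.card / Real.log P.card))))
        ≤ 67108864 * A ^ 2 * P.card / Real.log P.card * (3 * Real.log (Real.log P.card)) :=
          mul_le_mul_of_nonneg_left (by linarith) hT0.le
      _ ≤ 67108864 * A ^ 2 * P.card / Real.log P.card * (64 * Real.log (Real.log P.card)) :=
          mul_le_mul_of_nonneg_left (by linarith) hT0.le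
      _ = 4294967296 * A ^ 2 * (P.card * Real.log (Real.log P.card) / Real.log P.card) := by
          ring

end Pool.Agent.Results.MP_004b1b_co.LineCover
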