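import Pool.Agent.Lib.MP_004b1b_co.DL.FX

/-!
# MP_004b1b_co: rich lines in sets with few distinct distances and in extremal sets

`v n` is the minimum number of distances of an `n`-point set, `P` is extremal if `(dists P).card = v P.card`.
First part: `P` any set of `n ≥ 2` points, each of which sees at most `D` distances.  For every subset `Q` and every `k ≥ 1`
all but at most `2^26 k D^2 / n` points of `Q` form a set `Q'` such that every point of `Q'` lies on at least `n / (16 D)`
lines, each containing more than `k` points of `Q'`.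
Second part: extremal sets.
-/

set_option autoImplicit false

namespace Pool.Agent.Results.MP_004b1b_co.RichLines

open Finset Pool.Agent.Lib.MP_004b1b_co.DL

theorem result :
    (∀ (P : Finset Plane) (D : ℕ), 2 ≤ P.card → (∀ q ∈ P, (distsFrom P q).card ≤ D) →
      ∀ Q ⊆ P, ∀ k : ℕ, 1 ≤ k → ∃ Q' ⊆ Q,
        ((Q.card : ℝ) - Q'.card) * P.card ≤ 67108864 * k * (D : ℝ) ^ 2 ∧
        ∀ q ∈ Q', ManyRich Q' k ((P.card : ℝ) / (16 * D)) q) ∧
    ∃ c C : ℝ, 0 < c ∧ 0 < C ∧ ∀ P : Finset Plane, 2 ≤ P.card → (dists P).card = v P.card →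
      ∀ Q ⊆ P,
        (Q.Nonempty → ∃ L, IsLine L ∧ c * (Real.log P.card / P.card) * Q.card ≤ onLine Q L) ∧
        ∀ k : ℕ, 1 ≤ k → ∃ Q' ⊆ Q,
          (Q.card : ℝ) - Q'.card ≤ C * k * (P.card / Real.log P.card) ∧
          ∀ q ∈ Q', ManyRich Q' k (c * √(Real.log P.card)) q := by
  constructor
  · intro P D hP hD Q hQ k hk
    obtain ⟨Q', hQ', h1, h2⟩ := fin_coreQ P hP D hD Q hQ k hk
    refine ⟨Q', hQ', ?_, ?_⟩
    · have h3 : (((Q.card - Q'.card) * P.card : ℕ) : ℝ) ≤ 67108864 * k * (D : ℝ) ^ 2 := by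
        exact_mod_cast h1
      rw [Nat.cast_mul, Nat.cast_sub (card_le_card hQ')] at h3
      exact h3
    · intro q hq
      obtain ⟨𝓛, h3, h4⟩ := h2 q hq
      refine ⟨𝓛, h3, ?_⟩
      have h5 : (P.card : ℝ) ≤ 16 * D * 𝓛.card := by exact_mod_cast h4
      exact div_le_of_le_mul₀ (by positivity) (by positivity) (by linarith)
  · obtain ⟨A, hA, h⟩ := fx_sq
    have hA0 : 0 < A := by linarith
    refine ⟨1 / (67108864 * A ^ 2), 67108864 * A ^ 2, by positivity, by positivity, ?_⟩
    intro P hP hv Q hQ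
    obtain ⟨h1, h2⟩ := h P hP (extremal_of_v hv)
    obtain ⟨hl, hn, -⟩ := fx_nonneg P hP
    refine ⟨?_, ?_⟩
    · intro hQ0
      obtain ⟨L, hL, h3⟩ := fx_rich hA hP h2 Q hQ hQ0
      refine ⟨L, hL, ?_⟩
      have e : 1 / (67108864 * A ^ 2) * (Real.log P.card / P.card) =
          Real.log P.card / (67108864 * A ^ 2 * P.card) := by
        field_simp
      rw [e]
      exact h3
    · intro k hk
      obtain ⟨Q', hQ', h3, h4⟩ := fx_core hA hP h1 h2 Q hQ k hk
      refine ⟨Q', hQ', h3, ?_⟩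
      intro q hq
      obtain ⟨𝓛, h5, h6⟩ := h4 q hq
      refine ⟨𝓛, h5, le_trans ?_ h6⟩
      have hs : 0 ≤ √(Real.log P.card) := Real.sqrt_nonneg _
      refine mul_le_mul_of_nonneg_right ?_ hs
      apply one_div_le_one_div_of_le (by positivity)
      nlinarith

end Pool.Agent.Results.MP_004b1b_co.RichLines
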